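import Pool.Agent.L7h12.SV.Stm

/-!
# Project SV, part CMB2
-/

set_option autoImplicit false

namespace Pool.Agent.L7h42.SV

open Set Pool.Agent.L7h12.SV

theorem four {T : Set (ℤ × ℤ)} (hT : T.Finite) {a b c d : ℤ × ℤ} (ha : a ∈ T) (hb : b ∈ T)
    (hc : c ∈ T) (hd : d ∈ T) (hab : a ≠ b) (hac : a ≠ c) (had : a ≠ d) (hbc : b ≠ c)
    (hbd : b ≠ d) (hcd : c ≠ d) : 4 ≤ T.ncard := by
  have h : ({a, b, c, d} : Set (ℤ × ℤ)) ⊆ T := by
    rintro x (rfl | rfl | rfl | rfl) <;> assumption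
  have h2 := Set.ncard_le_ncard h hT
  have h3 : ({a, b, c, d} : Set (ℤ × ℤ)).ncard = 4 := by
    rw [Set.ncard_insert_of_notMem (by simp [hab, hac, had]),
      Set.ncard_insert_of_notMem (by simp [hbc, hbd]),
      Set.ncard_insert_of_notMem (by simp [hcd]), Set.ncard_singleton]
  omega

/-- neighbours -/
def Adj (t u : ℤ × ℤ) : Prop :=
  (u.1 = t.1 ∧ (u.2 = t.2 + 1 ∨ u.2 = t.2 - 1)) ∨ (u.2 = t.2 ∧ (u.1 = t.1 + 1 ∨ u.1 = t.1 - 1))

theorem ne_iff {a b : ℤ × ℤ} : a ≠ b ↔ (a.1 ≠ b.1 ∨ a.2 ≠ b.2) := by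
  rw [Ne, Prod.ext_iff]
  tauto

/-- the case without corners -/
theorem plain {T : Set (ℤ × ℤ)} (hT : T.Finite) (hne : T.Nonempty)
    (h : ∀ t ∈ T, ∃ u ∈ T, ∃ d ∈ T, u ≠ d ∧ Adj t u ∧ Adj t d) : 4 ≤ T.ncard := by
  obtain ⟨t, ht⟩ := hne
  obtain ⟨u, hu, d, hd, hud, h1, h2⟩ := h t ht
  obtain ⟨a, ha, b, hb, hab, h3, h4⟩ := h u hu
  have key : ∃ w ∈ T, w ≠ t ∧ Adj u w := by
    by_cases e : a = t
    · exact ⟨b, hb, fun e' => hab (e.trans e'.symm), h4⟩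
    · exact ⟨a, ha, e, h3⟩
  obtain ⟨w, hw, hwt, h5⟩ := key
  refine four hT ht hu hd hw ?_ ?_ hwt.symm hud ?_ ?_
  · rw [ne_iff]
    unfold Adj at h1
    omega
  · rw [ne_iff]
    unfold Adj at h2
    omega
  · rw [ne_iff]
    unfold Adj at h5
    omega
  · rw [ne_iff]
    unfold Adj at h1 h2 h5
    omega

theorem s_CMB2 : S_CMB2 := by
  intro A B T hA hB hT hne hr h
  -- a corner in `T`: the opposite corner and a neighbour
  have hc : ∀ t ∈ T, (t.1 = 0 ∨ t.1 = A) → (t.2 = 0 ∨ t.2 = B) →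
      (∃ t' ∈ T, t'.1 = A - t.1 ∧ t'.2 = B - t.2) ∧
        ∃ w ∈ T, (w.2 = t.2 ∧ (t.1 = 0 → w.1 = 1) ∧ (t.1 = A → w.1 = A - 1)) ∨
          (w.1 = t.1 ∧ (t.2 = 0 → w.2 = 1) ∧ (t.2 = B → w.2 = B - 1)) := by
    intro t ht h1 h2
    obtain ⟨σ, τ, hσ, hτ, a1, a2, a3, a4, hu, hd⟩ := h t ht
    refine ⟨?_, ?_⟩
    · rcases hu with hu | hu | hu
      · have := hr _ hu
        simp only at this
        exfalso
        rcases h1 with h1 | h1
        · have := a2 h1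
          omega
        · have := a1 h1
          omega
      · have := hr _ hu
        simp only at this
        exfalso
        rcases h2 with h2 | h2
        · have := a4 h2
          omega
        · have := a3 h2
          omega
      · exact ⟨_, hu.2.2, rfl, rfl⟩
    · rcases hd with hd | hd
      · refine ⟨_, hd, Or.inl ⟨rfl, fun e => ?_, fun e => ?_⟩⟩
        · have := a2 e
          simp only
          omega
        · have := a1 e
          simp only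
          omega
      · refine ⟨_, hd, Or.inr ⟨rfl, fun e => ?_, fun e => ?_⟩⟩
        · have := a4 e
          simp only
          omega
        · have := a3 e
          simp only
          omega
  by_cases hcor : ∃ t ∈ T, (t.1 = 0 ∨ t.1 = A) ∧ (t.2 = 0 ∨ t.2 = B)
  · obtain ⟨t, ht, h1, h2⟩ := hcor
    obtain ⟨⟨t', ht', e1, e2⟩, w, hw, h3⟩ := hc t ht h1 h2
    have h1' : t'.1 = 0 ∨ t'.1 = A := by omega
    have h2' : t'.2 = 0 ∨ t'.2 = B := by omega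
    obtain ⟨-, w', hw', h3'⟩ := hc t' ht' h1' h2'
    have r1 := hr t ht
    have hwt : w ≠ t ∧ w ≠ t' := by
      rw [ne_iff, ne_iff]
      omega
    have hwt' : w' ≠ t ∧ w' ≠ t' := by
      rw [ne_iff, ne_iff]
      omega
    have htt : t ≠ t' := by
      rw [ne_iff]
      omega
    by_cases e : w = w'
    · subst e
      have h4 : (w.1 = 0 ∨ w.1 = A) ∧ (w.2 = 0 ∨ w.2 = B) := by omega
      obtain ⟨⟨v, hv, f1, f2⟩, -⟩ := hc w hw h4.1 h4.2
      refine four hT ht ht' hw hv htt hwt.1.symm ?_ hwt.2.symm ?_ ?_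
      · rw [ne_iff]
        omega
      · rw [ne_iff]
        omega
      · rw [ne_iff]
        omega
    · exact four hT ht ht' hw hw' htt hwt.1.symm hwt'.1.symm hwt.2.symm hwt'.2.symm e
  · refine plain hT hne fun t ht => ?_
    obtain ⟨σ, τ, hσ, hτ, -, -, -, -, hu, hd⟩ := h t ht
    have key : ∃ u ∈ T, (u.1 = t.1 + σ ∧ u.2 = t.2) ∨ (u.1 = t.1 ∧ u.2 = t.2 + τ) := by
      rcases hu with hu | hu | hu
      · exact ⟨_, hu, Or.inl ⟨rfl, rfl⟩⟩
      · exact ⟨_, hu, Or.inr ⟨rfl, rfl⟩⟩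
      · exact absurd ⟨t, ht, hu.1, hu.2.1⟩ hcor
    have key' : ∃ u ∈ T, (u.1 = t.1 - σ ∧ u.2 = t.2) ∨ (u.1 = t.1 ∧ u.2 = t.2 - τ) := by
      rcases hd with hd | hd
      · exact ⟨_, hd, Or.inl ⟨rfl, rfl⟩⟩
      · exact ⟨_, hd, Or.inr ⟨rfl, rfl⟩⟩
    obtain ⟨u, hu, h1⟩ := key
    obtain ⟨d, hd, h2⟩ := key'
    refine ⟨u, hu, d, hd, ?_, ?_, ?_⟩
    · rw [ne_iff]
      omega
    · unfold Adj
      omega
    · unfold Adj
      omega

end Pool.Agent.L7h42.SV
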