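import Pool.Agent.L7h12.SV.Stm

/-!
# Project SV, part COL
-/

set_option autoImplicit false

namespace Pool.Agent.L7h42.SV

open Set Polynomial Pool.Agent.L7h12.SV

theorem mem_crit {p : ℝ[X]} (hp : p.derivative ≠ 0) (r : ℝ) :
    r ∈ p.derivative.roots.toFinset ↔ ¬ Rg p r := by
  rw [Multiset.mem_toFinset, mem_roots hp, IsRoot.def]
  unfold Rg
  rw [not_not]

theorem s_COL : S_COL := by
  classical
  intro p hp
  refine ⟨?_, ?_, ?_, ?_, ?_, ?_⟩
  · intro x x' hx h
    unfold col
    congr 2
    ext r
    rw [Finset.mem_filter, Finset.mem_filter]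
    constructor
    · rintro ⟨h1, h2⟩
      refine ⟨h1, ?_⟩
      by_contra h3
      exact (mem_crit hp r).1 h1 (h r (not_lt.1 h3) h2.le)
    · rintro ⟨h1, h2⟩
      exact ⟨h1, h2.trans_le hx⟩
  · intro x x' hx h1 h2 h r hr hr'
    by_contra h3
    have h4 : r ≠ x' := fun e => h3 (e ▸ h2)
    have h5 : p.derivative.roots.toFinset.filter (· < x) ⊂
        p.derivative.roots.toFinset.filter (· < x') := by
      rw [Finset.ssubset_iff_of_subset]
      · refine ⟨r, ?_, ?_⟩
        · rw [Finset.mem_filter]
          exact ⟨(mem_crit hp r).2 h3, lt_of_le_of_ne hr' h4⟩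
        · rw [Finset.mem_filter]
          exact fun h => absurd h.2 (not_lt.2 hr)
      · intro s hs
        rw [Finset.mem_filter] at hs ⊢
        exact ⟨hs.1, hs.2.trans_le hx⟩
    have h6 := Finset.card_lt_card h5
    unfold col at h
    have h7 := Nat.cast_injective (R := ℤ) h
    omega
  · intro x r x' h1 h2 h3 h4
    unfold col
    have h5 : p.derivative.roots.toFinset.filter (· < x') =
        insert r (p.derivative.roots.toFinset.filter (· < x)) := by
      ext s
      rw [Finset.mem_insert, Finset.mem_filter, Finset.mem_filter]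
      constructor
      · rintro ⟨a1, a2⟩
        by_cases e : s = r
        · exact Or.inl e
        · refine Or.inr ⟨a1, ?_⟩
          by_contra a3
          exact (mem_crit hp s).1 a1 (h4 s (not_lt.1 a3) a2.le e)
      · rintro (rfl | ⟨a1, a2⟩)
        · exact ⟨(mem_crit hp _).2 h3, h2⟩
        · exact ⟨a1, a2.trans (h1.trans h2)⟩
    have h6 : r ∉ p.derivative.roots.toFinset.filter (· < x) := by
      rw [Finset.mem_filter]
      exact fun h => absurd h.2 (not_lt.2 h1.le)
    rw [h5, Finset.card_insert_of_notMem h6]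
    push_cast
    ring
  · intro x
    refine ⟨?_, ?_⟩
    · exact Int.natCast_nonneg _
    · unfold col
      exact_mod_cast (Finset.card_filter_le _ _).trans
        ((Multiset.toFinset_card_le _).trans (card_roots' _))
  · intro x hx h r hr
    by_contra h3
    have h4 : r ≠ x := fun e => h3 (e ▸ hx)
    have h5 : r ∈ p.derivative.roots.toFinset.filter (· < x) := by
      rw [Finset.mem_filter]
      exact ⟨(mem_crit hp r).2 h3, lt_of_le_of_ne hr h4⟩
    have h6 := Finset.card_pos.2 ⟨r, h5⟩
    unfold col at h
    omega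
  · intro x h
    unfold col
    have h5 : p.derivative.roots.toFinset.filter (· < x) = ∅ := by
      rw [Finset.filter_eq_empty_iff]
      intro r hr h2
      exact (mem_crit hp r).1 hr (h r h2.le)
    rw [h5]
    rfl

end Pool.Agent.L7h42.SV
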